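import Pool.Agent.W834.NG.Rec

/-!
# The dimension counts for one, two and three variables
-/

set_option autoImplicit false

namespace Pool.Agent.W834.NG

open Finset Module

variable {K A ι I : Type*} [Field K] [CommRing A] [Algebra K A] [Fintype ι]
  [DecidableEq ι] [DecidableEq I]

omit [DecidableEq ι] in
theorem finrank_P_zero (X : ι → A) (a : ι → ℤ) (h : ∀ j, a j ≤ 0) : finrank K (P K X a) ≤ 1 := by
  have h1 : P K X a ≤ Submodule.span K {1} := by
    unfold P
    rw [Submodule.span_le]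
    rintro f ⟨s, hs, rfl⟩
    have : ∏ j, X j ^ s j = 1 := Finset.prod_eq_one fun j _ => by
      have h1 := hs j
      have h2 := h j
      have : s j = 0 := by omega
      rw [this, pow_zero]
    rw [this]
    exact Submodule.subset_span rfl
  refine (Submodule.finrank_mono h1).trans ?_
  exact (finrank_span_le_card ({1} : Set A)).trans (by simp)

omit [DecidableEq I] in
theorem U_zero (X : ι → A) (α : I → ι → K) (J : Finset ι) (a : ι → ℤ) (T : Finset I)
    (h : ∀ j, a j ≤ 0) : U X α J a T ≤ 1 :=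
  (Nat.sub_le _ _).trans (finrank_P_zero X a h)

omit [DecidableEq I] in
theorem U_eq_zero {X : ι → A} {α : I → ι → K} {J : Finset ι} {a : ι → ℤ} {T : Finset I}
    (h : P K X a ≤ Rel X α J a T) : U X α J a T = 0 :=
  Nat.sub_eq_zero_of_le (Submodule.finrank_mono h)

omit [DecidableEq I] in
/-- if the relations fill the multilinear level they fill all higher levels -/
theorem P_le_Rel {X : ι → A} {α : I → ι → K} {J : Finset ι} {T : Finset I}
    (h : P K X (ind J) ≤ Rel X α J (ind J) T) (d : ℤ) (hd : 1 ≤ d) :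
    P K X (deg J ∅ d) ≤ Rel X α J (deg J ∅ d) T := by
  conv_lhs => rw [P]
  rw [Submodule.span_le]
  rintro f ⟨s, hs, rfl⟩
  rw [SetLike.mem_coe]
  have hsplit : ∏ j, X j ^ s j = (∏ j, X j ^ min (s j) 1) * ∏ j, X j ^ (s j - 1) := by
    rw [← Finset.prod_mul_distrib]
    refine Finset.prod_congr rfl fun j _ => ?_
    rw [← pow_add]
    congr 1
    omega
  rw [hsplit]
  have hm2 : ∏ j, X j ^ (s j - 1) ∈ P K X (fun j => deg J ∅ d j - ind J j) := by
    refine mon_mem _ fun j => ?_
    have := hs j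
    unfold deg ind at *
    by_cases hj : j ∈ J
    · simp only [hj, if_true] at this ⊢
      omega
    · simp only [hj, if_false, Finset.notMem_empty] at this ⊢
      omega
  have hm1 : ∏ j, X j ^ min (s j) 1 ∈ P K X (ind J) := by
    refine mon_mem _ fun j => ?_
    have := hs j
    unfold deg ind at *
    by_cases hj : j ∈ J
    · simp only [hj, if_true] at this ⊢
      omega
    · simp only [hj, if_false, Finset.notMem_empty] at this ⊢
      omega
  have hle : Rel X α J (ind J) T ≤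
      (Rel X α J (deg J ∅ d) T).comap (LinearMap.mulRight K (∏ j, X j ^ (s j - 1))) := by
    refine Rel_le_of fun i hi f hf => ?_
    rw [Submodule.mem_comap, LinearMap.mulRight_apply, mul_assoc]
    refine mem_Rel hi (mul_mem_P hf hm2 fun j => ?_)
    linarith
  exact hle (h hm1)

theorem F_pure_high (X : ι → A) (α : I → ι → K) (N : ℕ) (J : Finset ι) (T : Finset I)
    (h : P K X (ind J) ≤ Rel X α J (ind J) T) : F X α N J ∅ T ≤ 1 := by
  unfold F
  rw [Finset.union_empty]
  cases N with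
  | zero => simp
  | succ n =>
    rw [Finset.sum_range_succ']
    have h1 : ∑ d ∈ Finset.range n, U X α J (deg J ∅ ((d + 1 : ℕ) : ℤ)) T = 0 := by
      refine Finset.sum_eq_zero fun d _ => ?_
      exact U_eq_zero (P_le_Rel h _ (by push_cast; omega))
    rw [h1, zero_add]
    refine U_zero X α J _ T fun j => ?_
    unfold deg
    split_ifs <;> simp

theorem F_low_le (X : ι → A) (α : I → ι → K) (N : ℕ) (J : Finset ι) (hJ : J.Nonempty)
    (T : Finset I) : F X α N ∅ J T ≤ F X α N J ∅ T := by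
  have h : ∀ d : ℤ, deg (∅ : Finset ι) J d = deg J ∅ (d - 1) := by
    intro d
    funext j
    simp [deg]
  have h1 : F X α N ∅ J T = ∑ d ∈ Finset.range N, U X α (J ∪ ∅) (deg J ∅ ((d : ℤ) - 1)) T := by
    unfold F
    refine Finset.sum_congr rfl fun d _ => ?_
    rw [h, Finset.empty_union, Finset.union_empty]
  rw [h1]
  exact F_shift (by simpa using hJ) N

theorem F_pure (X : ι → A) (α : I → ι → K) (N : ℕ) (J : Finset ι) (hJ : J.Nonempty)
    (T : Finset I) (h : P K X (ind J) ≤ Rel X α J (ind J) T) :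
    F X α N J ∅ T ≤ 1 ∧ F X α N ∅ J T ≤ 1 :=
  ⟨F_pure_high X α N J T h, (F_low_le X α N J hJ T).trans (F_pure_high X α N J T h)⟩

omit [DecidableEq I] in
/-- one variable -/
theorem fill_single (X : ι → A) {α : I → ι → K} {k : ι} {T : Finset I} {i i' : I} (hi : i ∈ T)
    (hi' : i' ∈ T) (hne : α i k ≠ α i' k) :
    P K X (ind {k}) ≤ Rel X α {k} (ind {k}) T := by
  have hv : ∀ i, v X (α i) {k} = X k + algebraMap K A (α i k) := fun i => by
    rw [v, Finset.prod_singleton]
  have h0 : (1 : A) ∈ P K X (fun j => ind {k} j - ind {k} j) := one_mem_P fun j => by simp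
  have m1 : X k + algebraMap K A (α i k) ∈ Rel X α {k} (ind {k}) T := by
    have := mem_Rel (α := α) (J := {k}) (a := ind {k}) hi h0
    rwa [mul_one, hv] at this
  have m2 : X k + algebraMap K A (α i' k) ∈ Rel X α {k} (ind {k}) T := by
    have := mem_Rel (α := α) (J := {k}) (a := ind {k}) hi' h0
    rwa [mul_one, hv] at this
  have hc : α i k - α i' k ≠ 0 := sub_ne_zero.2 hne
  have one_mem : (1 : A) ∈ Rel X α {k} (ind {k}) T := by
    have h := Submodule.smul_mem _ ((α i k - α i' k)⁻¹) (Submodule.sub_mem _ m1 m2)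
    have e : (α i k - α i' k)⁻¹ • (X k + algebraMap K A (α i k) -
        (X k + algebraMap K A (α i' k))) = 1 := by
      rw [add_sub_add_left_eq_sub, ← map_sub, Algebra.smul_def, ← map_mul, inv_mul_cancel₀ hc,
        map_one]
    rwa [e] at h
  have X_mem : X k ∈ Rel X α {k} (ind {k}) T := by
    have h := Submodule.sub_mem _ m1 (Submodule.smul_mem _ (α i k) one_mem)
    rwa [Algebra.smul_def, mul_one, add_sub_cancel_right] at h
  conv_lhs => rw [P]
  rw [Submodule.span_le]
  rintro f ⟨s, hs, rfl⟩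
  have e : ∏ j, X j ^ s j = X k ^ s k := by
    refine Finset.prod_eq_single k (fun j _ hj => ?_) fun h => absurd (Finset.mem_univ k) h
    have := hs j
    simp only [ind, Finset.mem_singleton, hj, if_false] at this
    have : s j = 0 := by omega
    rw [this, pow_zero]
  rw [e, SetLike.mem_coe]
  have := hs k
  simp only [ind, Finset.mem_singleton, if_true] at this
  rcases Nat.le_one_iff_eq_zero_or_eq_one.1 (by exact_mod_cast this) with h | h
  · rw [h, pow_zero]; exact one_mem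
  · rw [h, pow_one]; exact X_mem

omit [DecidableEq I] in
/-- two variables and four points in general position -/
theorem fill_pair (X : ι → A) {α : I → ι → K} {j k : ι} (hjk : j ≠ k) {T : Finset I}
    {i₀ i₁ i₂ i₃ : I} (h₀ : i₀ ∈ T) (h₁ : i₁ ∈ T) (h₂ : i₂ ∈ T) (h₃ : i₃ ∈ T)
    (hdet : (α i₁ j - α i₃ j) * (α i₂ j - α i₀ j) * ((α i₃ k - α i₀ k) * (α i₁ k - α i₂ k)) ≠
      (α i₁ k - α i₃ k) * (α i₂ k - α i₀ k) * ((α i₃ j - α i₀ j) * (α i₁ j - α i₂ j))) :
    P K X (ind {j, k}) ≤ Rel X α {j, k} (ind {j, k}) T := by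
  have hv : ∀ i, v X (α i) {j, k} =
      (X j + algebraMap K A (α i j)) * (X k + algebraMap K A (α i k)) := fun i => by
    rw [v, Finset.prod_pair hjk]
  have h0 : (1 : A) ∈ P K X (fun l => ind {j, k} l - ind {j, k} l) := one_mem_P fun l => by simp
  have m : ∀ i ∈ T, (X j + algebraMap K A (α i j)) * (X k + algebraMap K A (α i k)) ∈
      Rel X α {j, k} (ind {j, k}) T := by
    intro i hi
    have := mem_Rel (α := α) (J := {j, k}) (a := ind {j, k}) hi h0
    rwa [mul_one, hv] at this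
  have m0 := m i₀ h₀
  have m1 := m i₁ h₁
  have m2 := m i₂ h₂
  have m3 := m i₃ h₃
  set x₀ := α i₀ j
  set x₁ := α i₁ j
  set x₂ := α i₂ j
  set x₃ := α i₃ j
  set y₀ := α i₀ k
  set y₁ := α i₁ k
  set y₂ := α i₂ k
  set y₃ := α i₃ k
  set M := Rel X α {j, k} (ind {j, k}) T with hM
  -- the determinant
  set D : K := (x₁ - x₀) * ((y₂ - y₀) * (x₃ * y₃ - x₀ * y₀) - (y₃ - y₀) * (x₂ * y₂ - x₀ * y₀)) -
    (x₂ - x₀) * ((y₁ - y₀) * (x₃ * y₃ - x₀ * y₀) - (y₃ - y₀) * (x₁ * y₁ - x₀ * y₀)) +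
    (x₃ - x₀) * ((y₁ - y₀) * (x₂ * y₂ - x₀ * y₀) - (y₂ - y₀) * (x₁ * y₁ - x₀ * y₀)) with hD
  have hD0 : D ≠ 0 := by
    intro h
    apply hdet
    have e : (x₁ - x₃) * (x₂ - x₀) * ((y₃ - y₀) * (y₁ - y₂)) -
      (y₁ - y₃) * (y₂ - y₀) * ((x₃ - x₀) * (x₁ - x₂)) = D := by
      rw [hD]; ring
    rw [h] at e
    exact sub_eq_zero.1 e
  have comb : ∀ (c₁ c₂ c₃ : K) (g : A),
      c₁ • ((X j + algebraMap K A x₁) * (X k + algebraMap K A y₁) -
        (X j + algebraMap K A x₀) * (X k + algebraMap K A y₀)) +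
      c₂ • ((X j + algebraMap K A x₂) * (X k + algebraMap K A y₂) -
        (X j + algebraMap K A x₀) * (X k + algebraMap K A y₀)) +
      c₃ • ((X j + algebraMap K A x₃) * (X k + algebraMap K A y₃) -
        (X j + algebraMap K A x₀) * (X k + algebraMap K A y₀)) = D • g → g ∈ M := by
    intro c₁ c₂ c₃ g hg
    have h1 : D • g ∈ M := by
      rw [← hg]
      exact Submodule.add_mem _ (Submodule.add_mem _
        (Submodule.smul_mem _ _ (Submodule.sub_mem _ m1 m0))
        (Submodule.smul_mem _ _ (Submodule.sub_mem _ m2 m0)))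
        (Submodule.smul_mem _ _ (Submodule.sub_mem _ m3 m0))
    have h2 := Submodule.smul_mem _ D⁻¹ h1
    rwa [smul_smul, inv_mul_cancel₀ hD0, one_smul] at h2
  have one_mem : (1 : A) ∈ M := by
    apply comb ((x₂ - x₀) * (y₃ - y₀) - (x₃ - x₀) * (y₂ - y₀))
      ((x₃ - x₀) * (y₁ - y₀) - (x₁ - x₀) * (y₃ - y₀))
      ((x₁ - x₀) * (y₂ - y₀) - (x₂ - x₀) * (y₁ - y₀))
    rw [hD]
    simp only [Algebra.smul_def, map_sub, map_mul, map_add]
    ring
  have X_mem : X j ∈ M := by
    apply comb ((x₂ * y₂ - x₀ * y₀) * (x₃ - x₀) - (x₃ * y₃ - x₀ * y₀) * (x₂ - x₀))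
      ((x₃ * y₃ - x₀ * y₀) * (x₁ - x₀) - (x₁ * y₁ - x₀ * y₀) * (x₃ - x₀))
      ((x₁ * y₁ - x₀ * y₀) * (x₂ - x₀) - (x₂ * y₂ - x₀ * y₀) * (x₁ - x₀))
    rw [hD]
    simp only [Algebra.smul_def, map_sub, map_mul, map_add]
    ring
  have Y_mem : X k ∈ M := by
    apply comb ((y₂ - y₀) * (x₃ * y₃ - x₀ * y₀) - (y₃ - y₀) * (x₂ * y₂ - x₀ * y₀))
      ((y₃ - y₀) * (x₁ * y₁ - x₀ * y₀) - (y₁ - y₀) * (x₃ * y₃ - x₀ * y₀))
      ((y₁ - y₀) * (x₂ * y₂ - x₀ * y₀) - (y₂ - y₀) * (x₁ * y₁ - x₀ * y₀))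
    rw [hD]
    simp only [Algebra.smul_def, map_sub, map_mul, map_add]
    ring
  have XY_mem : X j * X k ∈ M := by
    have h := Submodule.sub_mem _ (Submodule.sub_mem _ (Submodule.sub_mem _ m0
      (Submodule.smul_mem _ y₀ X_mem)) (Submodule.smul_mem _ x₀ Y_mem))
      (Submodule.smul_mem _ (x₀ * y₀) one_mem)
    have e : (X j + algebraMap K A x₀) * (X k + algebraMap K A y₀) - y₀ • X j - x₀ • X k -
        (x₀ * y₀) • (1 : A) = X j * X k := by
      simp only [Algebra.smul_def, map_mul]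
      ring
    rwa [e] at h
  conv_lhs => rw [P]
  rw [Submodule.span_le]
  rintro f ⟨s, hs, rfl⟩
  have e : ∏ l, X l ^ s l = X j ^ s j * X k ^ s k := by
    rw [← Finset.prod_pair hjk (f := fun l => X l ^ s l)]
    symm
    refine Finset.prod_subset (Finset.subset_univ _) fun l _ hl => ?_
    have := hs l
    simp only [ind, hl, if_false] at this
    have : s l = 0 := by omega
    rw [this, pow_zero]
  rw [e, SetLike.mem_coe]
  have hj := hs j
  have hk := hs k
  simp only [ind, Finset.mem_insert, Finset.mem_singleton, true_or, or_true, if_true] at hj hk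
  rcases Nat.le_one_iff_eq_zero_or_eq_one.1 (by exact_mod_cast hj) with h | h <;>
  rcases Nat.le_one_iff_eq_zero_or_eq_one.1 (by exact_mod_cast hk) with h' | h'
  · rw [h, h', pow_zero, pow_zero, mul_one]; exact one_mem
  · rw [h, h', pow_zero, pow_one, one_mul]; exact Y_mem
  · rw [h, h', pow_zero, pow_one, mul_one]; exact X_mem
  · rw [h, h', pow_one, pow_one]; exact XY_mem

end Pool.Agent.W834.NG
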