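import Mathlib

/-!
# Dimension counts for ideals generated by products of linear forms

`P K X a` is the span of the monomials in the elements `X j` of a commutative algebra with exponent
at most `a j` of `X j`; `Rel` is the part generated by the products `v X (α i) J` of linear forms.
The main result is the recursion `U_le`.
-/

set_option autoImplicit false

namespace Pool.Agent.W834.NG

open Finset Module

variable (K : Type*) {A ι I : Type*} [Field K] [CommRing A] [Algebra K A] [Fintype ι]
  [DecidableEq ι] [DecidableEq I]

/-- the span of the monomials of degree at most `a j` in `X j` -/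
def P (X : ι → A) (a : ι → ℤ) : Submodule K A :=
  Submodule.span K {f | ∃ s : ι → ℕ, (∀ j, (s j : ℤ) ≤ a j) ∧ f = ∏ j, X j ^ s j}

variable {K}

omit [DecidableEq ι] in
theorem mon_mem {X : ι → A} {a : ι → ℤ} (s : ι → ℕ) (h : ∀ j, (s j : ℤ) ≤ a j) :
    ∏ j, X j ^ s j ∈ P K X a :=
  Submodule.subset_span ⟨s, h, rfl⟩

omit [DecidableEq ι] in
theorem P_mono {X : ι → A} {a b : ι → ℤ} (h : ∀ j, a j ≤ b j) : P K X a ≤ P K X b := by
  apply Submodule.span_mono
  rintro f ⟨s, hs, rfl⟩
  exact ⟨s, fun j => (hs j).trans (h j), rfl⟩

omit [DecidableEq ι] in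
theorem P_bot {X : ι → A} {a : ι → ℤ} {j : ι} (h : a j < 0) : P K X a = ⊥ := by
  rw [P, Submodule.span_eq_bot]
  rintro f ⟨s, hs, rfl⟩
  have := hs j
  omega

omit [DecidableEq ι] in
instance P_fd (X : ι → A) (a : ι → ℤ) : FiniteDimensional K (P K X a) := by
  apply FiniteDimensional.span_of_finite
  have h1 : {s : ι → ℕ | ∀ j, (s j : ℤ) ≤ a j}.Finite := by
    refine (Set.finite_Iic (fun j => (a j).toNat)).subset ?_
    intro s hs j
    have := hs j
    simp only
    omega
  refine (h1.image fun s => ∏ j, X j ^ s j).subset ?_
  rintro f ⟨s, hs, rfl⟩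
  exact ⟨s, hs, rfl⟩

omit [DecidableEq ι] in
theorem mul_mem_P {X : ι → A} {a b c : ι → ℤ} {f g : A} (hf : f ∈ P K X a) (hg : g ∈ P K X b)
    (hc : ∀ j, a j + b j ≤ c j) : f * g ∈ P K X c := by
  unfold P at hf
  induction hf using Submodule.span_induction with
  | mem f hf =>
    obtain ⟨s, hs, rfl⟩ := hf
    unfold P at hg
    induction hg using Submodule.span_induction with
    | mem g hg =>
      obtain ⟨s', hs', rfl⟩ := hg
      rw [← Finset.prod_mul_distrib]
      have : ∏ j, X j ^ s j * X j ^ s' j = ∏ j, X j ^ (s j + s' j) :=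
        Finset.prod_congr rfl fun j _ => (pow_add _ _ _).symm
      rw [this]
      refine mon_mem _ fun j => ?_
      have h1 := hs j
      have h2 := hs' j
      have h3 := hc j
      push_cast
      linarith
    | zero => rw [mul_zero]; exact Submodule.zero_mem _
    | add x y _ _ hx hy => rw [mul_add]; exact Submodule.add_mem _ hx hy
    | smul r x _ hx => rw [mul_smul_comm]; exact Submodule.smul_mem _ _ hx
  | zero => rw [zero_mul]; exact Submodule.zero_mem _
  | add x y _ _ hx hy => rw [add_mul]; exact Submodule.add_mem _ hx hy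
  | smul r x _ hx => rw [smul_mul_assoc]; exact Submodule.smul_mem _ _ hx

omit [DecidableEq ι] in
theorem one_mem_P {X : ι → A} {a : ι → ℤ} (h : ∀ j, 0 ≤ a j) : (1 : A) ∈ P K X a := by
  have := mon_mem (K := K) (X := X) (a := a) (fun _ => 0) (by simpa using h)
  simpa using this

theorem X_mem_P {X : ι → A} {a : ι → ℤ} {k : ι} (h : ∀ j, 0 ≤ a j) (hk : 1 ≤ a k) :
    X k ∈ P K X a := by
  have := mon_mem (K := K) (X := X) (a := a) (Pi.single k 1) (by
    intro j
    by_cases hj : j = k
    · subst hj; simpa using hk
    · rw [Pi.single_eq_of_ne hj]; simpa using h j)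
  have h2 : ∏ j, X j ^ (Pi.single k 1 : ι → ℕ) j = X k := by
    rw [Finset.prod_eq_single k]
    · simp
    · intro j _ hj
      rw [Pi.single_eq_of_ne hj, pow_zero]
    · intro h; exact absurd (Finset.mem_univ k) h
  rwa [h2] at this

/-- the indicator of a set of variables -/
def ind (J : Finset ι) : ι → ℤ := fun j => if j ∈ J then 1 else 0

/-- the product of the linear forms `X j + c j` -/
def v (X : ι → A) (c : ι → K) (J : Finset ι) : A := ∏ j ∈ J, (X j + algebraMap K A (c j))

omit [Fintype ι] in
theorem v_insert (X : ι → A) (c : ι → K) {J : Finset ι} {k : ι} (hk : k ∉ J) :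
    v X c (insert k J) = (X k + algebraMap K A (c k)) * v X c J := by
  rw [v, Finset.prod_insert hk, v]

omit [Fintype ι] in
theorem v_erase (X : ι → A) (c : ι → K) {J : Finset ι} {k : ι} (hk : k ∈ J) :
    v X c J = (X k + algebraMap K A (c k)) * v X c (J.erase k) := by
  conv_lhs => rw [← Finset.insert_erase hk]
  exact v_insert X c (Finset.notMem_erase k J)

theorem v_mem (X : ι → A) (c : ι → K) (J : Finset ι) : v X c J ∈ P K X (ind J) := by
  induction J using Finset.induction_on with
  | empty =>
    rw [v, Finset.prod_empty]
    exact one_mem_P fun j => by simp [ind]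
  | insert k J hk ih =>
    rw [v_insert X c hk]
    refine mul_mem_P (a := ind {k}) (b := ind J) ?_ ih ?_
    · refine Submodule.add_mem _ (X_mem_P (fun j => ?_) ?_) ?_
      · unfold ind; split_ifs <;> omega
      · simp [ind]
      · rw [Algebra.algebraMap_eq_smul_one]
        refine Submodule.smul_mem _ _ (one_mem_P fun j => ?_)
        unfold ind; split_ifs <;> omega
    · intro j
      unfold ind
      by_cases hj : j = k
      · subst hj; simp [hk]
      · simp [hj]

/-- splitting off the multiples of a linear form in the variable `k` -/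
theorem P_le_sup (X : ι → A) (a : ι → ℤ) (k : ι) (c : K) :
    P K X a ≤ (P K X (fun j => a j - ind {k} j)).map
      (LinearMap.mulLeft K (X k + algebraMap K A c)) ⊔ P K X (Function.update a k 0) := by
  conv_lhs => rw [P]
  rw [Submodule.span_le]
  rintro f ⟨s, hs, rfl⟩
  rw [SetLike.mem_coe]
  obtain ⟨n, hn⟩ : ∃ n, s k = n := ⟨_, rfl⟩
  induction n generalizing s with
  | zero =>
    apply Submodule.mem_sup_right
    refine mon_mem s fun j => ?_
    by_cases hj : j = k
    · subst hj; rw [hn, Function.update_self]; simp
    · rw [Function.update_of_ne hj]; exact hs j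
  | succ n ih =>
    have h1 : ∏ j, X j ^ s j = X k * ∏ j, X j ^ (Function.update s k n) j := by
      rw [← Finset.mul_prod_erase univ _ (Finset.mem_univ k), hn, pow_succ']
      rw [← Finset.mul_prod_erase univ (fun j => X j ^ (Function.update s k n) j)
        (Finset.mem_univ k), Function.update_self, mul_assoc]
      congr 2
      refine Finset.prod_congr rfl fun j hj => ?_
      rw [Function.update_of_ne (Finset.ne_of_mem_erase hj)]
    have h2 : X k * ∏ j, X j ^ (Function.update s k n) j =
        (X k + algebraMap K A c) * ∏ j, X j ^ (Function.update s k n) j -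
          c • ∏ j, X j ^ (Function.update s k n) j := by
      rw [Algebra.smul_def]
      ring
    rw [h1, h2]
    refine Submodule.sub_mem _ (Submodule.mem_sup_left ⟨_, mon_mem _ ?_, rfl⟩)
      (Submodule.smul_mem _ _ (ih _ ?_ (Function.update_self _ _ _)))
    · intro j
      by_cases hj : j = k
      · subst hj
        have := hs j
        rw [hn] at this
        rw [Function.update_self]
        simp only [ind, Finset.mem_singleton, if_true]
        push_cast at this
        linarith
      · rw [Function.update_of_ne hj]
        simp only [ind, Finset.mem_singleton, if_neg hj]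
        have := hs j
        linarith
    · intro j
      by_cases hj : j = k
      · subst hj
        have := hs j
        rw [hn] at this
        rw [Function.update_self]
        push_cast at this
        linarith
      · rw [Function.update_of_ne hj]
        exact hs j

/-- the relations: multiples of the products `v X (α i) J`, `i ∈ T` -/
noncomputable def Rel (X : ι → A) (α : I → ι → K) (J : Finset ι) (a : ι → ℤ) (T : Finset I) :
    Submodule K A :=
  T.sup fun i => (P K X (fun j => a j - ind J j)).map (LinearMap.mulLeft K (v X (α i) J))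

omit [DecidableEq I] in
instance Rel_fd (X : ι → A) (α : I → ι → K) (J : Finset ι) (a : ι → ℤ) (T : Finset I) :
    FiniteDimensional K (Rel X α J a T) := by
  unfold Rel
  infer_instance

omit [DecidableEq I] in
theorem mem_Rel {X : ι → A} {α : I → ι → K} {J : Finset ι} {a : ι → ℤ} {T : Finset I} {i : I}
    (hi : i ∈ T) {f : A} (hf : f ∈ P K X (fun j => a j - ind J j)) :
    v X (α i) J * f ∈ Rel X α J a T := by
  have h : (P K X (fun j => a j - ind J j)).map (LinearMap.mulLeft K (v X (α i) J)) ≤
      Rel X α J a T :=
    Finset.le_sup (f := fun i => (P K X (fun j => a j - ind J j)).map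
      (LinearMap.mulLeft K (v X (α i) J))) hi
  exact h ⟨f, hf, rfl⟩

omit [DecidableEq I] in
theorem Rel_le_of {X : ι → A} {α : I → ι → K} {J : Finset ι} {a : ι → ℤ} {T : Finset I}
    {M : Submodule K A} (h : ∀ i ∈ T, ∀ f ∈ P K X (fun j => a j - ind J j), v X (α i) J * f ∈ M) :
    Rel X α J a T ≤ M := by
  refine Finset.sup_le fun i hi => ?_
  rintro _ ⟨f, hf, rfl⟩
  exact h i hi f hf

omit [DecidableEq I] in
theorem Rel_le (X : ι → A) (α : I → ι → K) (J : Finset ι) (a : ι → ℤ) (T : Finset I) :
    Rel X α J a T ≤ P K X a :=
  Rel_le_of fun i _ f hf => mul_mem_P (v_mem X (α i) J) hf fun j => by linarith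

/-- the codimension of the relations -/
noncomputable def U (X : ι → A) (α : I → ι → K) (J : Finset ι) (a : ι → ℤ) (T : Finset I) : ℕ :=
  finrank K (P K X a) - finrank K (Rel X α J a T)

theorem finrank_step {V W : Type*} [AddCommGroup V] [Module K V] [AddCommGroup W] [Module K W]
    (X1 X2 : Submodule K V) (φ : W →ₗ[K] V) (M N : Submodule K W) [FiniteDimensional K X2]
    [FiniteDimensional K M] (h1 : X1 ≤ X2 ⊔ M.map φ) (h2 : N ≤ M) (h3 : N.map φ ≤ X2) :
    finrank K X1 ≤ finrank K X2 + (finrank K M - finrank K N) := by
  have hX : finrank K X1 ≤ finrank K (X2 ⊔ M.map φ : Submodule K V) := Submodule.finrank_mono h1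
  have hN : FiniteDimensional K N := Submodule.finiteDimensional_of_le h2
  set q : Submodule K V := X2 ⊔ M.map φ with hq
  -- the map from `M` to the quotient
  have e1 := LinearMap.finrank_range_add_finrank_ker ((X2.mkQ ∘ₗ φ).domRestrict M)
  have e2 : finrank K N ≤ finrank K (LinearMap.ker ((X2.mkQ ∘ₗ φ).domRestrict M)) := by
    refine LinearMap.finrank_le_finrank_of_injective
      (f := (Submodule.inclusion h2).codRestrict
        (LinearMap.ker ((X2.mkQ ∘ₗ φ).domRestrict M)) fun x => ?_) ?_
    · rw [LinearMap.mem_ker, LinearMap.domRestrict_apply, LinearMap.comp_apply,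
        Submodule.mkQ_apply, Submodule.Quotient.mk_eq_zero]
      exact h3 ⟨x, x.2, rfl⟩
    · intro x y hxy
      have := congrArg (fun z => ((z : LinearMap.ker ((X2.mkQ ∘ₗ φ).domRestrict M)) : M).1) hxy
      exact Subtype.ext this
  have e3 := LinearMap.finrank_range_add_finrank_ker (X2.mkQ.domRestrict q)
  have e4 : finrank K (LinearMap.ker (X2.mkQ.domRestrict q)) ≤ finrank K X2 := by
    refine LinearMap.finrank_le_finrank_of_injective
      (f := (q.subtype ∘ₗ (LinearMap.ker (X2.mkQ.domRestrict q)).subtype).codRestrict X2
        fun x => ?_) ?_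
    · have := x.2
      rw [LinearMap.mem_ker, LinearMap.domRestrict_apply, Submodule.mkQ_apply,
        Submodule.Quotient.mk_eq_zero] at this
      exact this
    · intro x y hxy
      have := congrArg (fun z : X2 => (z : V)) hxy
      exact Subtype.ext (Subtype.ext this)
  have e5 : LinearMap.range (X2.mkQ.domRestrict q) =
      LinearMap.range ((X2.mkQ ∘ₗ φ).domRestrict M) := by
    rw [LinearMap.range_domRestrict, LinearMap.range_domRestrict, hq, Submodule.map_sup,
      Submodule.map_comp]
    have : X2.map X2.mkQ = ⊥ := by
      rw [eq_bot_iff]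
      rintro _ ⟨x, hx, rfl⟩
      rw [Submodule.mem_bot, Submodule.mkQ_apply, Submodule.Quotient.mk_eq_zero]
      exact hx
    rw [this, bot_sup_eq]
  rw [e5] at e3
  omega

/-- the partially peeled spaces -/
noncomputable def Q (X : ι → A) (α : I → ι → K) (J : Finset ι) (a : ι → ℤ) (T : Finset I)
    (i₀ : I) (S : Finset ι) : Submodule K A :=
  (P K X (fun j => a j - ind S j)).map (LinearMap.mulLeft K (v X (α i₀) S)) ⊔ Rel X α J a T

omit [DecidableEq I] in
instance Q_fd (X : ι → A) (α : I → ι → K) (J : Finset ι) (a : ι → ℤ) (T : Finset I)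
    (i₀ : I) (S : Finset ι) : FiniteDimensional K (Q X α J a T i₀ S) := by
  unfold Q
  infer_instance

theorem Q_step {X : ι → A} {α : I → ι → K} {J : Finset ι} {a : ι → ℤ} {T : Finset I} {i₀ : I}
    {S : Finset ι} {k : ι} (hk : k ∈ J) (hkS : k ∉ S)
    (hα : ∀ i ∈ T, i ≠ i₀ → α i k ≠ α i₀ k)
    (hb : ∃ j ∈ J.erase k, a j - ind S j ≤ a k) :
    finrank K (Q X α J a T i₀ S) ≤ finrank K (Q X α J a T i₀ (insert k S)) +
      U X α (J.erase k) (Function.update (fun j => a j - ind S j) k 0) (T.erase i₀) := by
  have hindS : ind S k = 0 := by simp [ind, hkS]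
  have hins : ∀ j, a j - ind (insert k S) j = a j - ind S j - ind {k} j := by
    intro j
    unfold ind
    by_cases hj : j = k
    · subst hj; simp [hkS]
    · simp [hj]
  refine finrank_step _ _ (LinearMap.mulLeft K (v X (α i₀) S)) _ _ ?_ (Rel_le _ _ _ _ _) ?_
  · -- `X1 ≤ X2 ⊔ ...`
    unfold Q
    refine sup_le ?_ (le_sup_of_le_left le_sup_right)
    refine (Submodule.map_mono (P_le_sup X _ k (α i₀ k))).trans ?_
    rw [Submodule.map_sup]
    refine sup_le ?_ le_sup_right
    refine le_sup_of_le_left (le_sup_of_le_left ?_)
    rintro _ ⟨_, ⟨f, hf, rfl⟩, rfl⟩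
    refine ⟨f, ?_, ?_⟩
    · have : (fun j => a j - ind (insert k S) j) = fun j => a j - ind S j - ind {k} j :=
        funext hins
      rw [this]
      exact hf
    · simp only [LinearMap.mulLeft_apply]
      rw [v_insert X _ hkS]
      ring
  · -- the relations of the restricted problem
    rw [Submodule.map_le_iff_le_comap]
    refine Rel_le_of fun i hi g hg => ?_
    rw [Submodule.mem_comap, LinearMap.mulLeft_apply]
    obtain ⟨hne, hiT⟩ := Finset.mem_erase.1 hi
    by_cases hk1 : 1 ≤ a k
    · have hc : α i k - α i₀ k ≠ 0 := sub_ne_zero.2 (hα i hiT hne)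
      have key : v X (α i₀) S * (v X (α i) (J.erase k) * g) =
          (α i k - α i₀ k)⁻¹ • (v X (α i) J * (v X (α i₀) S * g) -
            v X (α i₀) (insert k S) * (v X (α i) (J.erase k) * g)) := by
        rw [v_erase X (α i) hk, v_insert X (α i₀) hkS]
        have h1 : (X k + algebraMap K A (α i k)) * v X (α i) (J.erase k) *
            (v X (α i₀) S * g) - (X k + algebraMap K A (α i₀ k)) * v X (α i₀) S *
            (v X (α i) (J.erase k) * g) = (α i k - α i₀ k) •
              (v X (α i₀) S * (v X (α i) (J.erase k) * g)) := by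
          rw [Algebra.smul_def, map_sub]
          ring
        rw [h1, smul_smul, inv_mul_cancel₀ hc, one_smul]
      rw [key]
      refine Submodule.smul_mem _ _ (Submodule.sub_mem _ ?_ ?_)
      · unfold Q
        apply Submodule.mem_sup_right
        refine mem_Rel hiT ?_
        refine mul_mem_P (v_mem X (α i₀) S) hg fun j => ?_
        by_cases hj : j = k
        · subst hj
          simp only [Function.update_self]
          simp only [ind, hkS, hk, Finset.mem_erase, ne_eq, not_true_eq_false, false_and,
            if_false, if_true]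
          linarith
        · rw [Function.update_of_ne hj]
          simp only [ind, Finset.mem_erase, ne_eq, hj, not_false_eq_true, true_and]
          linarith
      · unfold Q
        apply Submodule.mem_sup_left
        refine ⟨v X (α i) (J.erase k) * g, ?_, rfl⟩
        refine mul_mem_P (v_mem X (α i) (J.erase k)) hg fun j => ?_
        rw [hins]
        by_cases hj : j = k
        · subst hj
          simp only [Function.update_self, hindS]
          simp only [ind, Finset.mem_singleton, if_true]
          linarith
        · rw [Function.update_of_ne hj]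
          simp only [ind, Finset.mem_singleton, hj, if_false]
          linarith
    · -- everything vanishes
      obtain ⟨j, hj, hjb⟩ := hb
      have hjk := (Finset.mem_erase.1 hj).1
      have : P K X (fun l => (Function.update (fun j => a j - ind S j) k 0) l -
          ind (J.erase k) l) = ⊥ := by
        apply P_bot (j := j)
        rw [Function.update_of_ne hjk]
        simp only [ind, hj, if_true] at hjb ⊢
        rw [not_le] at hk1
        omega
      rw [this, Submodule.mem_bot] at hg
      rw [hg, mul_zero, mul_zero]
      exact Submodule.zero_mem _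

end Pool.Agent.W834.NG
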