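import Pool.Agent.W834.NG.Sol

/-!
# Bounds for the number of solutions of `m + 2` norm equations
-/

set_option autoImplicit false

namespace Pool.Agent.W834.NG

open Finset Module

variable {K : Type*} [Field K]

theorem cross_zero (x y z : K) : cross x y z x = 0 := by
  unfold cross
  rw [sub_self, zero_mul, div_zero]

theorem cross_one (x y z : K) : cross x y z y = 0 := by
  unfold cross
  rw [sub_self, zero_mul, zero_div]

theorem cross_two (x y z : K) (h1 : z ≠ x) (h2 : y ≠ z) : cross x y z z = 1 := by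
  unfold cross
  rw [mul_comm]
  exact div_self (mul_ne_zero (sub_ne_zero.2 h1) (sub_ne_zero.2 h2))

/-- the dichotomy -/
theorem exists_cross {m : ℕ} (hm : 0 < m) (φ : K →+* K) (c : Fin (m + 2) → K)
    (hc : Function.Injective c) (a : Fin (m + 2) → K) (ha : ∀ i, a i ≠ 0) (S : Finset K)
    (b : K → K) (hb : ∀ s ∈ S, b s ≠ 0)
    (hS : ∀ s ∈ S, ∀ i, ∏ j : Fin m, φ^[j] (s + c i) = a i * b s) (hcard : m < S.card) :
    ∃ i₀ i₁ i₂ i₃ : Fin (m + 2), ({i₀, i₁, i₂, i₃} : Finset (Fin (m + 2))).card = 4 ∧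
      i₃ ≠ i₀ ∧ i₁ ≠ i₂ ∧
      φ (cross (c i₀) (c i₁) (c i₂) (c i₃)) ≠ cross (c i₀) (c i₁) (c i₂) (c i₃) := by
  by_contra hcon
  have h01 : (1 : Fin (m + 2)) ≠ 0 := by
    intro h; have := congrArg Fin.val h; simp at this
  have h02 : (Fin.last (m + 1) : Fin (m + 2)) ≠ 0 := by
    intro h; have := congrArg Fin.val h; simp at this
  have h12 : (1 : Fin (m + 2)) ≠ Fin.last (m + 1) := by
    intro h; have := congrArg Fin.val h
    simp at this
    omega
  have := diag_bound hm φ c hc a ha S b hb hS 1 (Fin.last (m + 1)) h01 h02 h12 (by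
    intro i
    by_contra hi
    apply hcon
    have e0 : i ≠ 0 := by
      rintro rfl
      exact hi (by rw [cross_zero, map_zero])
    have e1 : i ≠ 1 := by
      rintro rfl
      exact hi (by rw [cross_one, map_zero])
    have e2 : i ≠ Fin.last (m + 1) := by
      rintro rfl
      exact hi (by rw [cross_two _ _ _ (fun h => h02 (hc h)) (fun h => h12 (hc h)), map_one])
    refine ⟨0, 1, Fin.last (m + 1), i, ?_, e0, h12, hi⟩
    rw [Finset.card_insert_of_notMem, Finset.card_insert_of_notMem, Finset.card_pair e2.symm]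
    · simp only [Finset.mem_insert, Finset.mem_singleton, not_or]
      exact ⟨h12, e1.symm⟩
    · simp only [Finset.mem_insert, Finset.mem_singleton, not_or]
      exact ⟨h01.symm, h02.symm, e0.symm⟩)
  omega

theorem αα_inj (φ : K →+* K) (m : ℕ) {I : Type*} (c : I → K) (hc : Function.Injective c)
    (T : Finset I) (k : Fin m) : Set.InjOn (fun i => αα φ m c i k) T :=
  fun i _ i' _ h => hc (φ.injective.iterate (k : ℕ) h)

theorem iter_inj_prime {m : ℕ} (hm : m.Prime) (φ : K →+* K) (hφ : ∀ x, φ^[m] x = x) {ρ : K}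
    (hρ : φ ρ ≠ ρ) {j k : Fin m} (hjk : j ≠ k) : φ^[j] ρ ≠ φ^[k] ρ := by
  have main : ∀ j k : ℕ, j < k → k < m → φ^[j] ρ ≠ φ^[k] ρ := by
    intro j k hjk hk h
    apply hρ
    have h1 : φ^[k] ρ = φ^[j] (φ^[k - j] ρ) := by
      rw [← Function.iterate_add_apply, Nat.add_sub_cancel' hjk.le]
    have h2 : φ^[k - j] ρ = ρ := (φ.injective.iterate j (h.trans h1)).symm
    have h3 : Function.IsPeriodicPt φ (k - j) ρ := h2
    have h4 : Function.IsPeriodicPt φ m ρ := hφ ρ
    have h5 := h3.gcd h4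
    have h6 : Nat.gcd (k - j) m = 1 := by
      rw [← Nat.coprime_iff_gcd_eq_one, Nat.coprime_comm, hm.coprime_iff_not_dvd]
      intro hdvd
      have := Nat.le_of_dvd (by omega) hdvd
      omega
    rw [h6] at h5
    exact h5
  rcases lt_or_gt_of_ne (fun h : (j : ℕ) = k => hjk (Fin.ext h)) with h | h
  · exact main j k h k.2
  · exact (main k j h j.2).symm

/-- prime `m`: at most `(2/3) m!` solutions -/
theorem bound_prime {m : ℕ} (hm : m.Prime) (hm3 : 3 ≤ m) (φ : K →+* K) (hφ : ∀ x, φ^[m] x = x)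
    (c : Fin (m + 2) → K) (hc : Function.Injective c) (a : Fin (m + 2) → K) (ha : ∀ i, a i ≠ 0)
    (S : Finset K) (b : K → K) (hb : ∀ s ∈ S, b s ≠ 0)
    (hS : ∀ s ∈ S, ∀ i, ∏ j : Fin m, φ^[j] (s + c i) = a i * b s) :
    3 * S.card ≤ 2 * m.factorial := by
  rcases Nat.lt_or_ge m S.card with hcard | hcard
  · obtain ⟨i₀, i₁, i₂, i₃, h4, h30, h12, hρ⟩ :=
      exists_cross hm.pos φ c hc a ha S b hb hS hcard
    have h1 := card_le_F hm.pos φ c a univ S b (fun s hs i _ => hS s hs i)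
    obtain ⟨n, rfl⟩ : ∃ n, m = n + 3 := ⟨m - 3, by omega⟩
    have h2 := F_good (X := XX φ (n + 3) S) (α := αα φ (n + 3) c) h4
      (fun x y hxy => good_of_cross φ S c hc h30 h12 hxy
        (iter_inj_prime hm φ hφ hρ hxy)) S.card n univ (Finset.subset_univ _) (by simp)
      (fun k => αα_inj φ _ c hc _ k) univ ∅ (Finset.disjoint_empty_right _) (by simp)
    have h3 := gg_eq n
    omega
  · have h1 : 2 ≤ (m - 1).factorial := by
      calc 2 = (2 : ℕ).factorial := rfl
        _ ≤ (m - 1).factorial := Nat.factorial_le (by omega)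
    have h2 : m.factorial = m * (m - 1).factorial := (Nat.mul_factorial_pred hm.ne_zero).symm
    rw [h2]
    nlinarith

/-- `m = 4`: at most sixteen solutions -/
theorem bound_four (φ : K →+* K) (hφ : ∀ x, φ^[4] x = x)
    (c : Fin 6 → K) (hc : Function.Injective c) (a : Fin 6 → K) (ha : ∀ i, a i ≠ 0)
    (S : Finset K) (b : K → K) (hb : ∀ s ∈ S, b s ≠ 0)
    (hS : ∀ s ∈ S, ∀ i, ∏ j : Fin 4, φ^[j] (s + c i) = a i * b s) :
    S.card ≤ 16 := by
  rcases Nat.lt_or_ge 4 S.card with hcard | hcard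
  · obtain ⟨i₀, i₁, i₂, i₃, h4, h30, h12, hρ⟩ :=
      exists_cross (by norm_num) φ c hc a ha S b hb hS hcard
    have h1 := card_le_F (m := 4) (by norm_num) φ c a univ S b (fun s hs i _ => hS s hs i)
    refine h1.trans ?_
    set ρ := cross (c i₀) (c i₁) (c i₂) (c i₃) with hρdef
    have hg : ∀ j k : Fin 4, j ≠ k → φ^[j] ρ ≠ φ^[k] ρ →
        Good (XX φ 4 S) (αα φ 4 c) {i₀, i₁, i₂, i₃} j k := fun j k hjk h =>
      good_of_cross φ S c hc h30 h12 hjk h
    have hinj : ∀ n : ℕ, φ^[n] ρ ≠ φ^[n + 1] ρ := by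
      intro n h
      apply hρ
      rw [Function.iterate_succ_apply] at h
      exact (φ.injective.iterate n h).symm
    refine F_four h4 (Finset.subset_univ _) (by simp) (fun k => αα_inj φ _ c hc _ k)
      (hg 0 1 (by decide) (hinj 0)) (hg 1 2 (by decide) (hinj 1)) (hg 2 3 (by decide) (hinj 2))
      (hg 3 0 (by decide) ?_) _
    intro h
    have h' := hinj 3
    have e : φ^[3 + 1] ρ = φ^[0] ρ := hφ ρ
    rw [e] at h'
    exact h' h
  · omega

end Pool.Agent.W834.NG
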