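import Pool.Agent.W834.NG.Main
import Pool.Agent.W834.NG.Graph

/-!
# The general bound: `(5/6) m!`
-/

set_option autoImplicit false

namespace Pool.Agent.W834.NG

open Finset Module

section

variable {K A I : Type*} [Field K] [CommRing A] [Algebra K A] [DecidableEq I] {m : ℕ}

/-- the elements from `c` on -/
def hi (J : Finset (Fin m)) (c : ℕ) : Finset (Fin m) := J.filter fun j => c ≤ (j : ℕ)

/-- the elements below `c` -/
def lo (J : Finset (Fin m)) (c : ℕ) : Finset (Fin m) := J.filter fun j => ¬ c ≤ (j : ℕ)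

/-- the sum `F` for a threshold -/
noncomputable def Fn (X : Fin m → A) (α : I → Fin m → K) (N : ℕ) (J : Finset (Fin m)) (c : ℕ)
    (T : Finset I) : ℕ := F X α N (hi J c) (lo J c) T

theorem hl_disj (J : Finset (Fin m)) (c : ℕ) : Disjoint (hi J c) (lo J c) :=
  Finset.disjoint_filter_filter_not _ _ _

theorem hl_union (J : Finset (Fin m)) (c : ℕ) : hi J c ∪ lo J c = J :=
  Finset.filter_union_filter_not_eq _ _

theorem Fn_rec {X : Fin m → A} {α : I → Fin m → K} {T : Finset I} {i₀ : I} (hi₀ : i₀ ∈ T)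
    (J : Finset (Fin m)) (c : ℕ) (h2 : 2 ≤ J.card) (hα : ∀ k, Set.InjOn (fun i => α i k) T)
    (N : ℕ) : Fn X α N J c T ≤ ∑ k ∈ J, Fn X α N (J.erase k) k (T.erase i₀) := by
  have h1 := F_rec (X := X) (α := α) hi₀ (hi J c) (lo J c) (hl_disj J c)
    (by rw [hl_union]; exact h2) (fun j : Fin m => (j : ℕ)) (fun a _ b _ hab => Fin.ext hab)
    (fun a _ b _ hab => Fin.ext hab) (fun k _ i hi hne h0 => hne (hα k hi hi₀ h0)) N
  refine h1.trans (le_of_eq ?_)
  rw [← Finset.sum_filter_add_sum_filter_not J (fun j : Fin m => c ≤ (j : ℕ))]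
  refine congrArg₂ _ (Finset.sum_congr rfl fun k hk => ?_) (Finset.sum_congr rfl fun k hk => ?_)
  · have hck : c ≤ (k : ℕ) := (Finset.mem_filter.1 hk).2
    have e1 : ((hi J c).filter fun l : Fin m => (k : ℕ) < (l : ℕ)) = hi (J.erase k) k := by
      ext l
      simp only [hi, Finset.mem_filter, Finset.mem_erase]
      constructor
      · rintro ⟨⟨a1, a2⟩, a3⟩
        exact ⟨⟨fun h0 => by rw [h0] at a3; exact lt_irrefl _ a3, a1⟩, a3.le⟩
      · rintro ⟨⟨a1, a2⟩, a3⟩
        have : (k : ℕ) ≠ l := fun h0 => a1 (Fin.ext h0.symm)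
        exact ⟨⟨a2, by omega⟩, by omega⟩
    have e2 : (lo J c ∪ (hi J c).filter fun l : Fin m => (l : ℕ) < (k : ℕ)) = lo (J.erase k) k := by
      ext l
      simp only [hi, lo, Finset.mem_filter, Finset.mem_erase, Finset.mem_union]
      constructor
      · rintro (⟨a1, a2⟩ | ⟨⟨a1, a2⟩, a3⟩)
        · exact ⟨⟨fun h0 => a2 (by rw [h0]; exact hck), a1⟩, by omega⟩
        · exact ⟨⟨fun h0 => by rw [h0] at a3; exact lt_irrefl _ a3, a1⟩, by omega⟩
      · rintro ⟨⟨a1, a2⟩, a3⟩
        by_cases h : c ≤ (l : ℕ)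
        · exact Or.inr ⟨⟨a2, h⟩, by omega⟩
        · exact Or.inl ⟨a2, h⟩
    unfold Fn
    rw [e1, e2]
  · have hck : ¬ c ≤ (k : ℕ) := (Finset.mem_filter.1 hk).2
    have e1 : (hi J c ∪ (lo J c).filter fun l : Fin m => (k : ℕ) < (l : ℕ)) = hi (J.erase k) k := by
      ext l
      simp only [hi, lo, Finset.mem_filter, Finset.mem_erase, Finset.mem_union]
      constructor
      · rintro (⟨a1, a2⟩ | ⟨⟨a1, a2⟩, a3⟩)
        · exact ⟨⟨fun h0 => hck (by rw [← h0]; exact a2), a1⟩, by omega⟩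
        · exact ⟨⟨fun h0 => by rw [h0] at a3; exact lt_irrefl _ a3, a1⟩, by omega⟩
      · rintro ⟨⟨a1, a2⟩, a3⟩
        have : (k : ℕ) ≠ l := fun h0 => a1 (Fin.ext h0.symm)
        by_cases h : c ≤ (l : ℕ)
        · exact Or.inl ⟨a2, h⟩
        · exact Or.inr ⟨⟨a2, h⟩, by omega⟩
    have e2 : ((lo J c).filter fun l : Fin m => (l : ℕ) < (k : ℕ)) = lo (J.erase k) k := by
      ext l
      simp only [lo, Finset.mem_filter, Finset.mem_erase]
      constructor
      · rintro ⟨⟨a1, a2⟩, a3⟩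
        exact ⟨⟨fun h0 => by rw [h0] at a3; exact lt_irrefl _ a3, a1⟩, by omega⟩
      · rintro ⟨⟨a1, a2⟩, a3⟩
        exact ⟨⟨a2, by omega⟩, by omega⟩
    unfold Fn
    rw [e1, e2]

/-- increasing triples -/
def Inc (J : Finset (Fin m)) : Finset (Fin m × Fin m × Fin m) :=
  (J ×ˢ J ×ˢ J).filter fun t => t.1 < t.2.1 ∧ t.2.1 < t.2.2

theorem mem_Inc {J : Finset (Fin m)} {a b c : Fin m} :
    (a, b, c) ∈ Inc J ↔ (a ∈ J ∧ b ∈ J ∧ c ∈ J) ∧ a < b ∧ b < c := by
  simp only [Inc, Finset.mem_filter, Finset.mem_product]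

theorem Inc_sum (J : Finset (Fin m)) (g : Fin m × Fin m × Fin m → ℕ) :
    ∑ k ∈ J, ∑ t ∈ Inc (J.erase k), g t = (J.card - 3) * ∑ t ∈ Inc J, g t := by
  have h1 : ∀ k, Inc (J.erase k) = (Inc J).filter fun t => k ≠ t.1 ∧ k ≠ t.2.1 ∧ k ≠ t.2.2 := by
    intro k
    ext ⟨a, b, c⟩
    simp only [mem_Inc, Finset.mem_filter, Finset.mem_erase, ne_eq]
    tauto
  simp_rw [h1, Finset.sum_filter]
  rw [Finset.sum_comm, Finset.mul_sum]
  refine Finset.sum_congr rfl fun t ht => ?_
  obtain ⟨a, b, c⟩ := t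
  rw [mem_Inc] at ht
  obtain ⟨⟨ha, hb, hc⟩, hab, hbc⟩ := ht
  rw [← Finset.sum_filter, Finset.sum_const, smul_eq_mul]
  congr 1
  have e : (J.filter fun k => k ≠ a ∧ k ≠ b ∧ k ≠ c) = ((J.erase a).erase b).erase c := by
    ext k
    simp only [Finset.mem_filter, Finset.mem_erase, ne_eq]
    tauto
  show (J.filter fun k => k ≠ a ∧ k ≠ b ∧ k ≠ c).card = J.card - 3
  rw [e, Finset.card_erase_of_mem, Finset.card_erase_of_mem, Finset.card_erase_of_mem ha]
  · omega
  · exact Finset.mem_erase.2 ⟨hab.ne', hb⟩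
  · exact Finset.mem_erase.2 ⟨hbc.ne', Finset.mem_erase.2 ⟨(hab.trans hbc).ne', hc⟩⟩

theorem Inc_card (J : Finset (Fin m)) : (Inc J).card ≤ J.card.choose 3 := by
  rw [← Finset.card_powersetCard]
  refine Finset.card_le_card_of_injOn (fun t => {t.1, t.2.1, t.2.2}) ?_ ?_
  · rintro ⟨a, b, c⟩ ht
    rw [Finset.mem_coe, mem_Inc] at ht
    obtain ⟨⟨ha, hb, hc⟩, hab, hbc⟩ := ht
    rw [Finset.mem_coe, Finset.mem_powersetCard]
    refine ⟨?_, Finset.card_eq_three.2 ⟨a, b, c, hab.ne, (hab.trans hbc).ne, hbc.ne, rfl⟩⟩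
    intro k hk
    simp only [Finset.mem_insert, Finset.mem_singleton] at hk
    rcases hk with rfl | rfl | rfl <;> assumption
  · rintro ⟨a, b, c⟩ ht ⟨a', b', c'⟩ ht' h
    rw [Finset.mem_coe, mem_Inc] at ht ht'
    obtain ⟨-, hab, hbc⟩ := ht
    obtain ⟨-, hab', hbc'⟩ := ht'
    simp only at h
    have q1 : a ∈ ({a', b', c'} : Finset (Fin m)) := by rw [← h]; simp
    have q2 : b ∈ ({a', b', c'} : Finset (Fin m)) := by rw [← h]; simp
    have q3 : c ∈ ({a', b', c'} : Finset (Fin m)) := by rw [← h]; simp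
    simp only [Finset.mem_insert, Finset.mem_singleton] at q1 q2 q3
    have r1 : a = a' ∧ b = b' ∧ c = c' := by omega
    rw [r1.1, r1.2.1, r1.2.2]

/-- three sorted elements -/
theorem sorted_three (J : Finset (Fin m)) (h : J.card = 3) :
    ∃ a b c : Fin m, a < b ∧ b < c ∧ J = {a, b, c} := by
  obtain ⟨x, y, z, hxy, hxz, hyz, rfl⟩ := Finset.card_eq_three.1 h
  rcases lt_or_gt_of_ne hxy with h1 | h1 <;> rcases lt_or_gt_of_ne hxz with h2 | h2 <;>
    rcases lt_or_gt_of_ne hyz with h3 | h3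
  · exact ⟨x, y, z, h1, h3, rfl⟩
  · exact ⟨x, z, y, h2, h3, by ext l; simp only [Finset.mem_insert, Finset.mem_singleton]; tauto⟩
  · exact absurd (h1.trans h3) (not_lt.2 h2.le)
  · exact ⟨z, x, y, h2, h1, by ext l; simp only [Finset.mem_insert, Finset.mem_singleton]; tauto⟩
  · exact ⟨y, x, z, h1, h2, by ext l; simp only [Finset.mem_insert, Finset.mem_singleton]; tauto⟩
  · exact absurd (h1.trans h2) (not_lt.2 h3.le)
  · exact ⟨y, z, x, h3, h2, by ext l; simp only [Finset.mem_insert, Finset.mem_singleton]; tauto⟩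
  · exact ⟨z, y, x, h3, h1, by ext l; simp only [Finset.mem_insert, Finset.mem_singleton]; tauto⟩

/-- the weight of a triple -/
def wt {B : Type*} [DecidableEq B] (f : Fin m → B) (t : Fin m × Fin m × Fin m) : ℕ :=
  4 + (if f t.1 = f t.2.1 then 1 else 0) + (if f t.2.1 = f t.2.2 then 1 else 0)

theorem Fn_three {B : Type*} [DecidableEq B] (f : Fin m → B) {X : Fin m → A}
    {α : I → Fin m → K} {T₄ T : Finset I} (h4 : T₄.card = 4) (hT4 : T₄ ⊆ T) (hT : 5 ≤ T.card)
    (hα : ∀ k, Set.InjOn (fun i => α i k) T) (hg : ∀ x y, f x ≠ f y → Good X α T₄ x y) (N : ℕ)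
    (J : Finset (Fin m)) (c : ℕ) (hJ : J.card = 3) :
    Fn X α N J c T ≤ ∑ t ∈ Inc J, wt f t := by
  obtain ⟨i₀, hi₀, hi₀'⟩ : ∃ i ∈ T, i ∉ T₄ := by
    by_contra hcon
    push Not at hcon
    have := Finset.card_le_card (show T ⊆ T₄ from hcon)
    omega
  have hT4' : T₄ ⊆ T.erase i₀ := fun i hi => Finset.mem_erase.2
    ⟨fun h0 => hi₀' (h0 ▸ hi), hT4 hi⟩
  have hα' : ∀ k, Set.InjOn (fun i => α i k) ((T.erase i₀ : Finset I) : Set I) := fun k =>
    (hα k).mono (Finset.coe_subset.2 (Finset.erase_subset _ _))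
  have hT' : 3 ≤ (T.erase i₀).card := by rw [Finset.card_erase_of_mem hi₀]; omega
  have h1 := Fn_rec (X := X) (α := α) hi₀ J c (by omega) hα N
  obtain ⟨x, y, z, hxy, hyz, rfl⟩ := sorted_three J hJ
  have hxz := hxy.trans hyz
  have two : ∀ (J' : Finset (Fin m)) (c' : ℕ), J'.card = 2 → Fn X α N J' c' (T.erase i₀) ≤ 2 := by
    intro J' c' hJ'
    exact F_two hT' hα' N (hl_disj J' c') (by rw [hl_union]; exact hJ')
  rw [Finset.sum_insert (by simp [hxy.ne, hxz.ne]), Finset.sum_insert (by simp [hyz.ne]),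
    Finset.sum_singleton] at h1
  have ex : ({x, y, z} : Finset (Fin m)).erase x = {y, z} := by
    ext l
    simp only [Finset.mem_erase, Finset.mem_insert, Finset.mem_singleton]
    constructor
    · tauto
    · rintro (rfl | rfl)
      · exact ⟨hxy.ne', by tauto⟩
      · exact ⟨hxz.ne', by tauto⟩
  have ey : ({x, y, z} : Finset (Fin m)).erase y = {x, z} := by
    ext l
    simp only [Finset.mem_erase, Finset.mem_insert, Finset.mem_singleton]
    constructor
    · tauto
    · rintro (rfl | rfl)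
      · exact ⟨hxy.ne, by tauto⟩
      · exact ⟨hyz.ne', by tauto⟩
  have ez : ({x, y, z} : Finset (Fin m)).erase z = {x, y} := by
    ext l
    simp only [Finset.mem_erase, Finset.mem_insert, Finset.mem_singleton]
    constructor
    · tauto
    · rintro (rfl | rfl)
      · exact ⟨hxz.ne, by tauto⟩
      · exact ⟨hyz.ne, by tauto⟩
  rw [ex, ey, ez] at h1
  have b1 : Fn X α N {y, z} x (T.erase i₀) ≤ 1 + (if f y = f z then 1 else 0) := by
    split_ifs with h
    · exact two _ _ (Finset.card_pair hyz.ne)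
    · have e1 : hi ({y, z} : Finset (Fin m)) x = {y, z} := by
        refine Finset.filter_true_of_mem fun l hl => ?_
        simp only [Finset.mem_insert, Finset.mem_singleton] at hl
        rcases hl with rfl | rfl
        · exact Fin.le_def.1 hxy.le
        · exact Fin.le_def.1 hxz.le
      have e2 : lo ({y, z} : Finset (Fin m)) x = ∅ := by
        refine Finset.filter_false_of_mem fun l hl => ?_
        simp only [Finset.mem_insert, Finset.mem_singleton] at hl
        rcases hl with rfl | rfl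
        · exact not_not.2 (Fin.le_def.1 hxy.le)
        · exact not_not.2 (Fin.le_def.1 hxz.le)
      unfold Fn
      rw [e1, e2]
      exact ((hg y z h).mono hT4').high N
  have b2 := two {x, z} y (Finset.card_pair hxz.ne)
  have b3 : Fn X α N {x, y} z (T.erase i₀) ≤ 1 + (if f x = f y then 1 else 0) := by
    split_ifs with h
    · exact two _ _ (Finset.card_pair hxy.ne)
    · have e1 : hi ({x, y} : Finset (Fin m)) z = ∅ := by
        refine Finset.filter_false_of_mem fun l hl => ?_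
        simp only [Finset.mem_insert, Finset.mem_singleton] at hl
        rcases hl with rfl | rfl
        · exact not_le.2 (Fin.lt_def.1 hxz)
        · exact not_le.2 (Fin.lt_def.1 hyz)
      have e2 : lo ({x, y} : Finset (Fin m)) z = {x, y} := by
        refine Finset.filter_true_of_mem fun l hl => ?_
        simp only [Finset.mem_insert, Finset.mem_singleton] at hl
        rcases hl with rfl | rfl
        · exact not_le.2 (Fin.lt_def.1 hxz)
        · exact not_le.2 (Fin.lt_def.1 hyz)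
      unfold Fn
      rw [e1, e2]
      exact ((hg x y h).mono hT4').low N
  have hmem : (x, y, z) ∈ Inc ({x, y, z} : Finset (Fin m)) := by
    rw [mem_Inc]
    exact ⟨⟨by simp, by simp, by simp⟩, hxy, hyz⟩
  have hsum : wt f (x, y, z) ≤ ∑ t ∈ Inc ({x, y, z} : Finset (Fin m)), wt f t :=
    Finset.single_le_sum (f := wt f) (fun _ _ => Nat.zero_le _) hmem
  have hw : wt f (x, y, z) = 4 + (if f x = f y then 1 else 0) + (if f y = f z then 1 else 0) := rfl
  omega

theorem Fn_bound {B : Type*} [DecidableEq B] (f : Fin m → B) {X : Fin m → A}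
    {α : I → Fin m → K} {T₄ : Finset I} (h4 : T₄.card = 4)
    (hg : ∀ x y, f x ≠ f y → Good X α T₄ x y) (N : ℕ) : ∀ (n : ℕ) (T : Finset I), T₄ ⊆ T →
    n + 5 ≤ T.card → (∀ k, Set.InjOn (fun i => α i k) T) → ∀ (J : Finset (Fin m)) (c : ℕ),
    J.card = n + 3 → Fn X α N J c T ≤ n.factorial * ∑ t ∈ Inc J, wt f t := by
  intro n
  induction n with
  | zero =>
    intro T hT4 hT hα J c hJ
    rw [Nat.factorial_zero, one_mul]
    exact Fn_three f h4 hT4 (by omega) hα hg N J c hJ
  | succ n ih =>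
    intro T hT4 hT hα J c hJ
    obtain ⟨i₀, hi₀, hi₀'⟩ : ∃ i ∈ T, i ∉ T₄ := by
      by_contra hcon
      push Not at hcon
      have := Finset.card_le_card (show T ⊆ T₄ from hcon)
      omega
    refine (Fn_rec (X := X) (α := α) hi₀ J c (by omega) hα N).trans ?_
    have h1 : ∀ k ∈ J, Fn X α N (J.erase k) k (T.erase i₀) ≤
        n.factorial * ∑ t ∈ Inc (J.erase k), wt f t := by
      intro k hk
      refine ih (T.erase i₀) (fun i hi => Finset.mem_erase.2
        ⟨fun h0 => hi₀' (h0 ▸ hi), hT4 hi⟩) ?_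
        (fun k => (hα k).mono (Finset.coe_subset.2 (Finset.erase_subset _ _))) _ _ ?_
      · rw [Finset.card_erase_of_mem hi₀]; omega
      · rw [Finset.card_erase_of_mem hk]; omega
    refine (Finset.sum_le_sum h1).trans (le_of_eq ?_)
    rw [← Finset.mul_sum, Inc_sum, hJ, Nat.factorial_succ]
    have : n + 1 + 3 - 3 = n + 1 := by omega
    rw [this]
    ring

/-- half of the triples at most are bad on the left -/
theorem bad_left {B : Type*} [DecidableEq B] (f : Fin m → B)
    (hf : ∀ x y : Fin m, (x : ℕ) + 1 = y → f x ≠ f y) :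
    2 * ((Inc (univ : Finset (Fin m))).filter fun t => f t.1 = f t.2.1).card ≤
      (Inc (univ : Finset (Fin m))).card := by
  have h1 : ((Inc (univ : Finset (Fin m))).filter fun t => f t.1 = f t.2.1).card ≤
      ((Inc (univ : Finset (Fin m))).filter fun t => ¬ f t.1 = f t.2.1).card := by
    have step : ∀ t ∈ (Inc (univ : Finset (Fin m))).filter fun t => f t.1 = f t.2.1,
        ∃ h : (t.1 : ℕ) + 1 < m, (⟨(t.1 : ℕ) + 1, h⟩ : Fin m) < t.2.1 ∧ t.2.1 < t.2.2 ∧
          ¬ f ⟨(t.1 : ℕ) + 1, h⟩ = f t.2.1 := by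
      rintro ⟨a, b, c⟩ ht
      rw [Finset.mem_filter, mem_Inc] at ht
      obtain ⟨⟨-, hab, hbc⟩, hfab⟩ := ht
      simp only at hfab ⊢
      have hab' : (a : ℕ) < b := hab
      have hne : (a : ℕ) + 1 ≠ b := fun h => hf a b h hfab
      have hlt : (a : ℕ) + 1 < b := by omega
      refine ⟨lt_trans hlt b.2, hlt, hbc, ?_⟩
      rw [← hfab]
      exact (hf a _ rfl).symm
    refine Finset.card_le_card_of_injOn (fun t => if h : (t.1 : ℕ) + 1 < m then
      (⟨(t.1 : ℕ) + 1, h⟩, t.2) else t) ?_ ?_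
    · intro t ht
      obtain ⟨h, h1, h2, h3⟩ := step t ht
      simp only [dif_pos h]
      rw [Finset.mem_coe, Finset.mem_filter]
      refine ⟨?_, h3⟩
      obtain ⟨a, b, c⟩ := t
      exact mem_Inc.2 ⟨⟨Finset.mem_univ _, Finset.mem_univ _, Finset.mem_univ _⟩, h1, h2⟩
    · intro t ht t' ht' htt
      obtain ⟨h, -⟩ := step t ht
      obtain ⟨h', -⟩ := step t' ht'
      simp only [dif_pos h, dif_pos h', Prod.mk.injEq, Fin.mk.injEq] at htt
      exact Prod.ext (Fin.ext (by omega)) htt.2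
  have h2 := Finset.card_filter_add_card_filter_not (s := Inc (univ : Finset (Fin m)))
    (fun t => f t.1 = f t.2.1)
  omega

theorem bad_right {B : Type*} [DecidableEq B] (f : Fin m → B)
    (hf : ∀ x y : Fin m, (x : ℕ) + 1 = y → f x ≠ f y) :
    2 * ((Inc (univ : Finset (Fin m))).filter fun t => f t.2.1 = f t.2.2).card ≤
      (Inc (univ : Finset (Fin m))).card := by
  have h1 : ((Inc (univ : Finset (Fin m))).filter fun t => f t.2.1 = f t.2.2).card ≤
      ((Inc (univ : Finset (Fin m))).filter fun t => ¬ f t.2.1 = f t.2.2).card := by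
    have hlt : ∀ c : Fin m, (c : ℕ) - 1 < m := fun c => lt_of_le_of_lt (Nat.sub_le _ _) c.2
    have step : ∀ t ∈ (Inc (univ : Finset (Fin m))).filter fun t => f t.2.1 = f t.2.2,
        1 ≤ (t.2.2 : ℕ) ∧ t.1 < t.2.1 ∧ t.2.1 < (⟨(t.2.2 : ℕ) - 1, hlt _⟩ : Fin m) ∧
          ¬ f t.2.1 = f ⟨(t.2.2 : ℕ) - 1, hlt _⟩ := by
      rintro ⟨a, b, c⟩ ht
      rw [Finset.mem_filter, mem_Inc] at ht
      obtain ⟨⟨-, hab, hbc⟩, hfbc⟩ := ht
      simp only at hfbc ⊢
      have hbc' : (b : ℕ) < c := hbc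
      have hne : (b : ℕ) + 1 ≠ c := fun h => hf b c h hfbc
      refine ⟨by omega, hab, Fin.lt_def.2 (show (b : ℕ) < (c : ℕ) - 1 by omega), ?_⟩
      rw [hfbc]
      exact (hf ⟨(c : ℕ) - 1, hlt c⟩ c (show (c : ℕ) - 1 + 1 = c by omega)).symm
    refine Finset.card_le_card_of_injOn (fun t => (t.1, t.2.1, ⟨(t.2.2 : ℕ) - 1, hlt _⟩)) ?_ ?_
    · intro t ht
      obtain ⟨h0, h1, h2, h3⟩ := step t ht
      rw [Finset.mem_coe, Finset.mem_filter]
      exact ⟨mem_Inc.2 ⟨⟨Finset.mem_univ _, Finset.mem_univ _, Finset.mem_univ _⟩, h1, h2⟩, h3⟩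
    · intro t ht t' ht' htt
      obtain ⟨h, -⟩ := step t ht
      obtain ⟨h', -⟩ := step t' ht'
      simp only [Prod.mk.injEq, Fin.mk.injEq] at htt
      exact Prod.ext htt.1 (Prod.ext htt.2.1 (Fin.ext (by omega)))
  have h2 := Finset.card_filter_add_card_filter_not (s := Inc (univ : Finset (Fin m)))
    (fun t => f t.2.1 = f t.2.2)
  omega

theorem wt_sum {B : Type*} [DecidableEq B] (f : Fin m → B)
    (hf : ∀ x y : Fin m, (x : ℕ) + 1 = y → f x ≠ f y) :
    ∑ t ∈ Inc (univ : Finset (Fin m)), wt f t ≤ 5 * m.choose 3 := by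
  have h1 := bad_left f hf
  have h2 := bad_right f hf
  have h3 := Inc_card (univ : Finset (Fin m))
  rw [Finset.card_univ, Fintype.card_fin] at h3
  unfold wt
  rw [Finset.sum_add_distrib, Finset.sum_add_distrib, Finset.sum_const, smul_eq_mul,
    ← Finset.card_filter, ← Finset.card_filter]
  omega

end

/-- general `m`: at most `(5/6) m!` solutions -/
theorem bound_general {K : Type*} [Field K] {m : ℕ} (hm3 : 3 ≤ m) (φ : K →+* K)
    (c : Fin (m + 2) → K) (hc : Function.Injective c) (a : Fin (m + 2) → K) (ha : ∀ i, a i ≠ 0)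
    (S : Finset K) (b : K → K) (hb : ∀ s ∈ S, b s ≠ 0)
    (hS : ∀ s ∈ S, ∀ i, ∏ j : Fin m, φ^[j] (s + c i) = a i * b s) :
    6 * S.card ≤ 5 * m.factorial := by
  classical
  rcases Nat.lt_or_ge m S.card with hcard | hcard
  · obtain ⟨i₀, i₁, i₂, i₃, h4, h30, h12, hρ⟩ :=
      exists_cross (by omega) φ c hc a ha S b hb hS hcard
    have h1 := card_le_F (by omega) φ c a univ S b (fun s hs i _ => hS s hs i)
    obtain ⟨n, rfl⟩ : ∃ n, m = n + 3 := ⟨m - 3, by omega⟩
    set ρ := cross (c i₀) (c i₁) (c i₂) (c i₃) with hρdef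
    have hf : ∀ x y : Fin (n + 3), (x : ℕ) + 1 = y → φ^[x] ρ ≠ φ^[y] ρ := by
      intro x y hxy h
      apply hρ
      rw [← hxy, Function.iterate_succ_apply] at h
      exact (φ.injective.iterate (x : ℕ) h).symm
    have h2 := Fn_bound (fun j : Fin (n + 3) => φ^[j] ρ) (X := XX φ (n + 3) S)
      (α := αα φ (n + 3) c) h4
      (fun x y hxy => good_of_cross φ S c hc h30 h12 (fun h0 => hxy (by rw [h0])) hxy)
      S.card n univ (Finset.subset_univ _) (by simp) (fun k => αα_inj φ _ c hc _ k) univ 0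
      (by simp)
    have h3 := wt_sum (fun j : Fin (n + 3) => φ^[j] ρ) hf
    have e1 : hi (univ : Finset (Fin (n + 3))) 0 = univ := by simp [hi]
    have e2 : lo (univ : Finset (Fin (n + 3))) 0 = ∅ := by simp [lo]
    unfold Fn at h2
    rw [e1, e2] at h2
    have h5 : (n + 3).choose 3 * Nat.factorial 3 * (n + 3 - 3).factorial = (n + 3).factorial :=
      Nat.choose_mul_factorial_mul_factorial (by omega)
    have e3 : n + 3 - 3 = n := by omega
    have e4 : Nat.factorial 3 = 6 := rfl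
    rw [e3, e4] at h5
    calc 6 * S.card ≤ 6 * (n.factorial * (5 * (n + 3).choose 3)) :=
          Nat.mul_le_mul_left 6 ((h1.trans h2).trans (Nat.mul_le_mul_left _ h3))
      _ = 5 * ((n + 3).choose 3 * 6 * n.factorial) := by ring
      _ = 5 * (n + 3).factorial := by rw [h5]
  · have h1 : 2 ≤ (m - 1).factorial := by
      calc 2 = (2 : ℕ).factorial := rfl
        _ ≤ (m - 1).factorial := Nat.factorial_le (by omega)
    have h2 : m.factorial = m * (m - 1).factorial :=
      (Nat.mul_factorial_pred (by omega)).symm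
    rw [h2]
    nlinarith

theorem solBound_general {m : ℕ} (hm : 3 ≤ m) : SolBound m (5 * m.factorial / 6) := by
  intro K _ φ _ c hc a ha S b hb hS
  have := bound_general hm φ c hc a ha S b hb hS
  omega

theorem solBound_prime {m : ℕ} (hm : 3 ≤ m) (hp : m.Prime) : SolBound m (2 * m.factorial / 3) := by
  intro K _ φ hφ c hc a ha S b hb hS
  have := bound_prime hp hm φ hφ c hc a ha S b hb hS
  omega

theorem solBound_four : SolBound 4 16 := by
  intro K _ φ hφ c hc a ha S b hb hS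
  exact bound_four φ hφ c hc a ha S b hb hS

end Pool.Agent.W834.NG
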