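import Pool.Agent.W834.NG.Core

/-!
# The recursion for the dimension counts
-/

set_option autoImplicit false

namespace Pool.Agent.W834.NG

open Finset Module

variable {K A ι I : Type*} [Field K] [CommRing A] [Algebra K A] [Fintype ι]
  [DecidableEq ι] [DecidableEq I]

theorem Q_chain {X : ι → A} {α : I → ι → K} {J : Finset ι} {a : ι → ℤ} {T : Finset I} {i₀ : I}
    (S₀ H : Finset ι) (hH : H ⊆ J) (hd : Disjoint S₀ H) (key : ι → ℕ)
    (hkey : Set.InjOn key H)
    (hα : ∀ k ∈ H, ∀ i ∈ T, i ≠ i₀ → α i k ≠ α i₀ k)
    (hb : ∀ k ∈ H, ∃ j ∈ J.erase k,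
      a j - ind (S₀ ∪ H.filter fun l => key l < key k) j ≤ a k) :
    finrank K (Q X α J a T i₀ S₀) ≤ finrank K (Q X α J a T i₀ (S₀ ∪ H)) +
      ∑ k ∈ H, U X α (J.erase k) (Function.update (fun j => a j -
        ind (S₀ ∪ H.filter fun l => key l < key k) j) k 0) (T.erase i₀) := by
  have main : ∀ n : ℕ, finrank K (Q X α J a T i₀ S₀) ≤
      finrank K (Q X α J a T i₀ (S₀ ∪ H.filter fun l => key l < n)) +
      ∑ k ∈ H.filter (fun l => key l < n), U X α (J.erase k) (Function.update (fun j => a j -
        ind (S₀ ∪ H.filter fun l => key l < key k) j) k 0) (T.erase i₀) := by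
    intro n
    induction n with
    | zero =>
      have e0 : (H.filter fun l => key l < 0) = ∅ :=
        Finset.filter_false_of_mem fun l _ => Nat.not_lt_zero _
      rw [e0, Finset.union_empty, Finset.sum_empty]
      exact le_rfl
    | succ n ih =>
      by_cases h : ∃ k ∈ H, key k = n
      · obtain ⟨k, hk, rfl⟩ := h
        have e1 : (H.filter fun l => key l < key k + 1) =
            insert k (H.filter fun l => key l < key k) := by
          ext l
          simp only [Finset.mem_filter, Finset.mem_insert]
          constructor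
          · rintro ⟨h1, h2⟩
            rcases Nat.lt_succ_iff_lt_or_eq.1 h2 with h3 | h3
            · exact Or.inr ⟨h1, h3⟩
            · exact Or.inl (hkey h1 hk h3)
          · rintro (rfl | ⟨h1, h2⟩)
            · exact ⟨hk, Nat.lt_succ_self _⟩
            · exact ⟨h1, Nat.lt_succ_of_lt h2⟩
        have hkn : k ∉ H.filter fun l => key l < key k := by simp
        rw [e1, Finset.sum_insert hkn, Finset.union_insert]
        have hkS : k ∉ S₀ ∪ H.filter fun l => key l < key k := by
          rw [Finset.mem_union, not_or]
          exact ⟨fun h0 => (Finset.disjoint_left.1 hd h0) hk, hkn⟩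
        have := Q_step (X := X) (hH hk) hkS (hα k hk) (hb k hk)
        linarith
      · have e1 : (H.filter fun l => key l < n + 1) = H.filter fun l => key l < n := by
          refine Finset.filter_congr fun l hl => ?_
          have : key l ≠ n := fun h0 => h ⟨l, hl, h0⟩
          omega
        rw [e1]
        exact ih
  have h := main (H.sup key + 1)
  have e : (H.filter fun l => key l < H.sup key + 1) = H := by
    refine Finset.filter_true_of_mem fun l hl => ?_
    exact Nat.lt_succ_of_le (Finset.le_sup (f := key) hl)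
  rwa [e] at h

/-- the degree `d` on `H` and `d - 1` on `L` -/
def deg (H L : Finset ι) (d : ℤ) : ι → ℤ :=
  fun j => if j ∈ H then d else if j ∈ L then d - 1 else 0

theorem U_rec {X : ι → A} {α : I → ι → K} {T : Finset I} {i₀ : I} (hi₀ : i₀ ∈ T)
    (H L : Finset ι) (hd : Disjoint H L) (h2 : 2 ≤ (H ∪ L).card) (key : ι → ℕ)
    (hkH : Set.InjOn key H) (hkL : Set.InjOn key L)
    (hα : ∀ k ∈ H ∪ L, ∀ i ∈ T, i ≠ i₀ → α i k ≠ α i₀ k) (d : ℤ) :
    U X α (H ∪ L) (deg H L d) T ≤
      ∑ k ∈ H, U X α ((H.filter fun l => key k < key l) ∪ (L ∪ H.filter fun l => key l < key k))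
        (deg (H.filter fun l => key k < key l) (L ∪ H.filter fun l => key l < key k) d)
        (T.erase i₀) +
      ∑ k ∈ L, U X α ((H ∪ L.filter fun l => key k < key l) ∪ (L.filter fun l => key l < key k))
        (deg (H ∪ L.filter fun l => key k < key l) (L.filter fun l => key l < key k) (d - 1))
        (T.erase i₀) := by
  set J := H ∪ L with hJ
  set a := deg H L d with ha
  have hne : ∀ k ∈ J, ∃ j, j ∈ J.erase k := by
    intro k hk
    have : 0 < (J.erase k).card := by rw [Finset.card_erase_of_mem hk]; omega
    exact Finset.card_pos.1 this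
  have hind : ∀ (S : Finset ι) (j : ι), 0 ≤ ind S j := by
    intro S j; unfold ind; split_ifs <;> omega
  have haH : ∀ j ∈ H, a j = d := fun j hj => by simp [ha, deg, hj]
  have haL : ∀ j ∈ L, a j = d - 1 := fun j hj => by
    have : j ∉ H := fun h => Finset.disjoint_left.1 hd h hj
    simp [ha, deg, hj, this]
  have c1 := Q_chain (X := X) (α := α) (J := J) (a := a) (T := T) (i₀ := i₀) ∅ H
    (Finset.subset_union_left) (Finset.disjoint_empty_left _) key hkH
    (fun k hk => hα k (Finset.mem_union_left _ hk)) (by
      intro k hk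
      obtain ⟨j, hj⟩ := hne k (Finset.mem_union_left _ hk)
      refine ⟨j, hj, ?_⟩
      rw [haH k hk]
      have h3 := hind (∅ ∪ H.filter fun l => key l < key k) j
      rcases Finset.mem_union.1 (Finset.mem_of_mem_erase hj) with h | h
      · rw [haH j h]; linarith
      · rw [haL j h]; linarith)
  have c2 := Q_chain (X := X) (α := α) (J := J) (a := a) (T := T) (i₀ := i₀) H L
    (Finset.subset_union_right) hd key hkL
    (fun k hk => hα k (Finset.mem_union_right _ hk)) (by
      intro k hk
      obtain ⟨j, hj⟩ := hne k (Finset.mem_union_right _ hk)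
      refine ⟨j, hj, ?_⟩
      rw [haL k hk]
      rcases Finset.mem_union.1 (Finset.mem_of_mem_erase hj) with h | h
      · rw [haH j h]
        have : ind (H ∪ L.filter fun l => key l < key k) j = 1 := by simp [ind, h]
        rw [this]
      · rw [haL j h]
        have h3 := hind (H ∪ L.filter fun l => key l < key k) j
        linarith)
  rw [Finset.empty_union] at c1
  -- the start
  have s1 : finrank K (P K X a) ≤ finrank K (Q X α J a T i₀ ∅) := by
    apply Submodule.finrank_mono
    unfold Q
    refine le_sup_of_le_left ?_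
    intro f hf
    refine ⟨f, ?_, ?_⟩
    · have : (fun j => a j - ind ∅ j) = a := by funext j; simp [ind]
      rw [this]; exact hf
    · simp [v]
  -- the end
  have s2 : finrank K (Q X α J a T i₀ J) ≤ finrank K (Rel X α J a T) := by
    apply Submodule.finrank_mono
    unfold Q
    refine sup_le ?_ le_rfl
    rintro _ ⟨f, hf, rfl⟩
    exact mem_Rel hi₀ hf
  have t1 : ∀ k ∈ H, U X α (J.erase k) (Function.update (fun j => a j -
      ind (∅ ∪ H.filter fun l => key l < key k) j) k 0) (T.erase i₀) =
      U X α ((H.filter fun l => key k < key l) ∪ (L ∪ H.filter fun l => key l < key k))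
        (deg (H.filter fun l => key k < key l) (L ∪ H.filter fun l => key l < key k) d)
        (T.erase i₀) := by
    intro k hk
    have hkL' : k ∉ L := Finset.disjoint_left.1 hd hk
    have e1 : J.erase k = (H.filter fun l => key k < key l) ∪
        (L ∪ H.filter fun l => key l < key k) := by
      ext l
      simp only [hJ, Finset.mem_erase, Finset.mem_union, Finset.mem_filter]
      constructor
      · rintro ⟨h1, h3 | h3⟩
        · have : key l ≠ key k := fun h0 => h1 (hkH h3 hk h0)
          rcases lt_or_gt_of_ne this with h4 | h4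
          · exact Or.inr (Or.inr ⟨h3, h4⟩)
          · exact Or.inl ⟨h3, h4⟩
        · exact Or.inr (Or.inl h3)
      · rintro (⟨h1, h3⟩ | h1 | ⟨h1, h3⟩)
        · exact ⟨fun h0 => by subst h0; exact lt_irrefl _ h3, Or.inl h1⟩
        · exact ⟨fun h0 => by subst h0; exact hkL' h1, Or.inr h1⟩
        · exact ⟨fun h0 => by subst h0; exact lt_irrefl _ h3, Or.inl h1⟩
    have e2 : Function.update (fun j => a j - ind (∅ ∪ H.filter fun l => key l < key k) j) k 0 =
        deg (H.filter fun l => key k < key l) (L ∪ H.filter fun l => key l < key k) d := by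
      funext j
      by_cases hj : j = k
      · subst hj
        rw [Function.update_self]
        simp [deg, hkL']
      · rw [Function.update_of_ne hj]
        by_cases hjH : j ∈ H
        · rw [haH j hjH]
          have hne' : key j ≠ key k := fun h0 => hj (hkH hjH hk h0)
          rcases lt_or_gt_of_ne hne' with h4 | h4
          · simp [deg, ind, hjH, h4, not_lt.2 h4.le]
          · simp [deg, ind, hjH, h4, not_lt.2 h4.le]
        · by_cases hjL : j ∈ L
          · rw [haL j hjL]
            simp [deg, ind, hjH, hjL]
          · simp [ha, deg, ind, hjH, hjL]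
    rw [e1, e2]
  have t2 : ∀ k ∈ L, U X α (J.erase k) (Function.update (fun j => a j -
      ind (H ∪ L.filter fun l => key l < key k) j) k 0) (T.erase i₀) =
      U X α ((H ∪ L.filter fun l => key k < key l) ∪ (L.filter fun l => key l < key k))
        (deg (H ∪ L.filter fun l => key k < key l) (L.filter fun l => key l < key k) (d - 1))
        (T.erase i₀) := by
    intro k hk
    have hkH' : k ∉ H := fun h0 => Finset.disjoint_left.1 hd h0 hk
    have e1 : J.erase k = (H ∪ L.filter fun l => key k < key l) ∪
        (L.filter fun l => key l < key k) := by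
      ext l
      simp only [hJ, Finset.mem_erase, Finset.mem_union, Finset.mem_filter]
      constructor
      · rintro ⟨h1, h3 | h3⟩
        · exact Or.inl (Or.inl h3)
        · have : key l ≠ key k := fun h0 => h1 (hkL h3 hk h0)
          rcases lt_or_gt_of_ne this with h4 | h4
          · exact Or.inr ⟨h3, h4⟩
          · exact Or.inl (Or.inr ⟨h3, h4⟩)
      · rintro ((h1 | ⟨h1, h3⟩) | ⟨h1, h3⟩)
        · exact ⟨fun h0 => by subst h0; exact hkH' h1, Or.inl h1⟩
        · exact ⟨fun h0 => by subst h0; exact lt_irrefl _ h3, Or.inr h1⟩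
        · exact ⟨fun h0 => by subst h0; exact lt_irrefl _ h3, Or.inr h1⟩
    have e2 : Function.update (fun j => a j - ind (H ∪ L.filter fun l => key l < key k) j) k 0 =
        deg (H ∪ L.filter fun l => key k < key l) (L.filter fun l => key l < key k) (d - 1) := by
      funext j
      by_cases hj : j = k
      · subst hj
        rw [Function.update_self]
        simp [deg, hkH']
      · rw [Function.update_of_ne hj]
        by_cases hjH : j ∈ H
        · rw [haH j hjH]
          simp [deg, ind, hjH]
        · by_cases hjL : j ∈ L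
          · rw [haL j hjL]
            have hne' : key j ≠ key k := fun h0 => hj (hkL hjL hk h0)
            rcases lt_or_gt_of_ne hne' with h4 | h4
            · simp [deg, ind, hjH, hjL, h4, not_lt.2 h4.le]
            · simp [deg, ind, hjH, hjL, h4, not_lt.2 h4.le]
          · simp [ha, deg, ind, hjH, hjL]
    rw [e1, e2]
  rw [Finset.sum_congr rfl t1] at c1
  rw [Finset.sum_congr rfl t2] at c2
  rw [← hJ] at c2
  have hU : U X α J a T = finrank K (P K X a) - finrank K (Rel X α J a T) := rfl
  rw [hU]
  omega

/-- the sum of the codimensions over all levels -/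
noncomputable def F (X : ι → A) (α : I → ι → K) (N : ℕ) (H L : Finset ι) (T : Finset I) : ℕ :=
  ∑ d ∈ Finset.range N, U X α (H ∪ L) (deg H L d) T

omit [DecidableEq I] in
theorem U_neg {X : ι → A} {α : I → ι → K} {T : Finset I} {H L : Finset ι}
    (hne : (H ∪ L).Nonempty) {d : ℤ} (hdn : d < 0) :
    U X α (H ∪ L) (deg H L d) T = 0 := by
  obtain ⟨j, hj⟩ := hne
  have : P K X (deg H L d) = ⊥ := by
    apply P_bot (j := j)
    unfold deg
    rcases Finset.mem_union.1 hj with h | h
    · simp [h, hdn]
    · split_ifs <;> omega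
  unfold U
  rw [this, finrank_bot]
  simp

omit [DecidableEq I] in
theorem F_shift {X : ι → A} {α : I → ι → K} {T : Finset I} {H L : Finset ι}
    (hne : (H ∪ L).Nonempty) (N : ℕ) :
    ∑ d ∈ Finset.range N, U X α (H ∪ L) (deg H L ((d : ℤ) - 1)) T ≤ F X α N H L T := by
  unfold F
  cases N with
  | zero => simp
  | succ n =>
    rw [Finset.sum_range_succ']
    have h0 : U X α (H ∪ L) (deg H L (((0 : ℕ) : ℤ) - 1)) T = 0 := U_neg hne (by norm_num)
    rw [h0, add_zero, Finset.sum_range_succ]
    refine le_trans (le_of_eq ?_) (Nat.le_add_right _ _)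
    refine Finset.sum_congr rfl fun d _ => ?_
    congr 2
    push_cast
    ring

theorem F_rec {X : ι → A} {α : I → ι → K} {T : Finset I} {i₀ : I} (hi₀ : i₀ ∈ T)
    (H L : Finset ι) (hd : Disjoint H L) (h2 : 2 ≤ (H ∪ L).card) (key : ι → ℕ)
    (hkH : Set.InjOn key H) (hkL : Set.InjOn key L)
    (hα : ∀ k ∈ H ∪ L, ∀ i ∈ T, i ≠ i₀ → α i k ≠ α i₀ k) (N : ℕ) :
    F X α N H L T ≤
      ∑ k ∈ H, F X α N (H.filter fun l => key k < key l) (L ∪ H.filter fun l => key l < key k)
        (T.erase i₀) +
      ∑ k ∈ L, F X α N (H ∪ L.filter fun l => key k < key l) (L.filter fun l => key l < key k)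
        (T.erase i₀) := by
  have h1 : F X α N H L T ≤ ∑ d ∈ Finset.range N,
      (∑ k ∈ H, U X α ((H.filter fun l => key k < key l) ∪
        (L ∪ H.filter fun l => key l < key k))
        (deg (H.filter fun l => key k < key l) (L ∪ H.filter fun l => key l < key k) d)
        (T.erase i₀) +
      ∑ k ∈ L, U X α ((H ∪ L.filter fun l => key k < key l) ∪ (L.filter fun l => key l < key k))
        (deg (H ∪ L.filter fun l => key k < key l) (L.filter fun l => key l < key k)
          ((d : ℤ) - 1))
        (T.erase i₀)) :=
    Finset.sum_le_sum fun d _ => U_rec hi₀ H L hd h2 key hkH hkL hα d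
  refine h1.trans ?_
  rw [Finset.sum_add_distrib]
  refine Nat.add_le_add ?_ ?_
  · rw [Finset.sum_comm]
    exact le_of_eq rfl
  · rw [Finset.sum_comm]
    refine Finset.sum_le_sum fun k hk => ?_
    refine F_shift ?_ N
    -- nonempty
    have hkH' : k ∉ H := fun h0 => Finset.disjoint_left.1 hd h0 hk
    obtain ⟨j, hj, hjk⟩ : ∃ j ∈ H ∪ L, j ≠ k := by
      by_contra hcon
      push Not at hcon
      have : (H ∪ L).card ≤ 1 := Finset.card_le_one.2 fun x hx y hy => by
        rw [hcon x hx, hcon y hy]
      omega
    refine ⟨j, ?_⟩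
    rcases Finset.mem_union.1 hj with h | h
    · simp [h]
    · have hne' : key j ≠ key k := fun h0 => hjk (hkL h hk h0)
      rcases lt_or_gt_of_ne hne' with h4 | h4
      · simp [h, h4]
      · simp [h, h4]

end Pool.Agent.W834.NG
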